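import Pool.Agent.Q104.H23

/-!
# MP_2eee52_co: attaching a pendant vertex at a leaf can leave the class of SSP graphs
-/

set_option autoImplicit false

namespace Pool.Agent.Results.MP_2eee52_co.Attach

open Pool.Agent.Q104.SSP

/-- There is an SSP graph `G` (on eight vertices) with a leaf `v` such that the graph obtained by
attaching a new pendant vertex at `v` is not an SSP graph. -/
theorem result : ∃ (G : SimpleGraph (Fin 8)) (v : Fin 8),
    GSSP G ∧ (∃! u, G.Adj v u) ∧ ¬ GSSP (attach G v) := by
  refine ⟨G13, 0, G13_GSSP, ⟨1, by decide, by decide⟩, attach_G13_not_GSSP⟩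

end Pool.Agent.Results.MP_2eee52_co.Attach
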